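import Pool.Agent.HIK.Stmts

set_option autoImplicit false

namespace Pool.Agent.HIK.H52

open Pool.Agent.HIK
open Polynomial NumberField

theorem norm_root_le (h : ℂ[X]) (hm : h.Monic) (y : ℂ) (hy : h.eval y = 0) :
    ‖y‖ ≤ 1 + ∑ k ∈ Finset.range h.natDegree, ‖h.coeff k‖ := by
  have hnn : 0 ≤ ∑ k ∈ Finset.range h.natDegree, ‖h.coeff k‖ :=
    Finset.sum_nonneg fun _ _ => norm_nonneg _
  by_cases h1 : ‖y‖ ≤ 1
  · linarith
  rw [not_le] at h1
  have hd : 1 ≤ h.natDegree := by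
    by_contra hd
    have h0 : h.natDegree = 0 := by omega
    have h1' : h = 1 := hm.natDegree_eq_zero.1 h0
    rw [h1'] at hy; simp at hy
  rw [eval_eq_sum_range, Finset.sum_range_succ, hm.coeff_natDegree, one_mul] at hy
  have h2 : ‖y‖ ^ h.natDegree ≤ (∑ k ∈ Finset.range h.natDegree, ‖h.coeff k‖) *
      ‖y‖ ^ (h.natDegree - 1) := by
    have h3 : y ^ h.natDegree = -∑ k ∈ Finset.range h.natDegree, h.coeff k * y ^ k := by
      linear_combination hy
    rw [← norm_pow, h3, norm_neg, Finset.sum_mul]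
    refine (norm_sum_le _ _).trans (Finset.sum_le_sum fun k hk => ?_)
    rw [Finset.mem_range] at hk
    rw [norm_mul, norm_pow]
    refine mul_le_mul_of_nonneg_left ?_ (norm_nonneg _)
    exact pow_le_pow_right₀ h1.le (by omega)
  have h4 : ‖y‖ ^ h.natDegree = ‖y‖ * ‖y‖ ^ (h.natDegree - 1) := by
    rw [← pow_succ']; congr 1; omega
  rw [h4] at h2
  have h5 : (0 : ℝ) < ‖y‖ ^ (h.natDegree - 1) := by positivity
  have h6 := le_of_mul_le_mul_right h2 h5
  linarith

variable {K : Type} [Field K] [NumberField K]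

/-- the sum of the houses of the coefficients -/
noncomputable def lenR (p : (𝓞 K)[X]) : ℝ :=
  ∑ i ∈ Finset.range (p.natDegree + 1), house ((p.coeff i : 𝓞 K) : K)

theorem lenR_nonneg (p : (𝓞 K)[X]) : 0 ≤ lenR p :=
  Finset.sum_nonneg fun _ _ => house_nonneg _

theorem house_eval_le (p : (𝓞 K)[X]) (a : 𝓞 K) (T κ : ℕ) (hT : 1 ≤ T) (ha : house (a : K) ≤ T)
    (hκ : p.natDegree ≤ κ) : house ((p.eval a : 𝓞 K) : K) ≤ lenR p * (T : ℝ) ^ κ := by
  have hT' : (1 : ℝ) ≤ T := by exact_mod_cast hT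
  rw [eval_eq_sum_range]
  have h1 : ((∑ i ∈ Finset.range (p.natDegree + 1), p.coeff i * a ^ i : 𝓞 K) : K) =
      ∑ i ∈ Finset.range (p.natDegree + 1), ((p.coeff i : 𝓞 K) : K) * (a : K) ^ i := by
    push_cast
    rfl
  rw [h1, lenR, Finset.sum_mul]
  refine (house_sum_le_sum_house _ _).trans (Finset.sum_le_sum fun i hi => ?_)
  refine (house_mul_le _ _).trans (mul_le_mul_of_nonneg_left ?_ (house_nonneg _))
  refine (house_pow_le _ _).trans ?_
  refine (pow_le_pow_left₀ (house_nonneg _) ha i).trans ?_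
  rw [Finset.mem_range] at hi
  exact pow_le_pow_right₀ hT' (by omega)

theorem rtb : RtbStmt := by
  intro K _ _ g hm
  set κ := ∑ k ∈ Finset.range g.natDegree, (g.coeff k).natDegree with hκ
  set S : ℝ := ∑ k ∈ Finset.range g.natDegree, lenR (g.coeff k) with hS
  have hS0 : 0 ≤ S := Finset.sum_nonneg fun _ _ => lenR_nonneg _
  refine ⟨⌈1 + S⌉₊, κ, fun T hT a y ha hy => ?_⟩
  have hT' : (1 : ℝ) ≤ T := by exact_mod_cast hT
  have hC : 1 + S ≤ (⌈1 + S⌉₊ : ℝ) := Nat.le_ceil _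
  have hTκ : (1 : ℝ) ≤ (T : ℝ) ^ κ := one_le_pow₀ hT'
  unfold house
  refine (pi_norm_le_iff_of_nonneg (by positivity)).mpr fun σ => ?_
  rw [canonicalEmbedding.apply_at]
  set ψ : 𝓞 K →+* ℂ := σ.comp (algebraMap (𝓞 K) K) with hψ
  have hy' : (g.map (evalRingHom a)).eval y = 0 := by
    rw [map_evalRingHom_eval]
    exact hy
  have hmon : ((g.map (evalRingHom a)).map ψ).Monic := (hm.map _).map _
  have hroot : ((g.map (evalRingHom a)).map ψ).eval (ψ y) = 0 := by
    rw [eval_map_apply, hy', map_zero]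
  have hdeg : ((g.map (evalRingHom a)).map ψ).natDegree = g.natDegree := by
    rw [(hm.map _).natDegree_map, hm.natDegree_map]
  have h1 := norm_root_le _ hmon _ hroot
  rw [hdeg] at h1
  have h2 : ∀ k ∈ Finset.range g.natDegree, ‖((g.map (evalRingHom a)).map ψ).coeff k‖ ≤
      lenR (g.coeff k) * (T : ℝ) ^ κ := by
    intro k hk
    rw [coeff_map, coeff_map, coe_evalRingHom]
    refine (norm_embedding_le_house (((g.coeff k).eval a : 𝓞 K) : K) σ).trans ?_
    exact house_eval_le _ _ _ _ hT ha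
      (Finset.single_le_sum (f := fun k => (g.coeff k).natDegree) (fun _ _ => Nat.zero_le _) hk)
  have h3 := Finset.sum_le_sum h2
  rw [← Finset.sum_mul, ← hS] at h3
  have h4 : ‖ψ y‖ ≤ 1 + S * (T : ℝ) ^ κ := h1.trans (by linarith)
  have h5 : (1 + S) * (T : ℝ) ^ κ ≤ (⌈1 + S⌉₊ : ℝ) * (T : ℝ) ^ κ :=
    mul_le_mul_of_nonneg_right hC (by positivity)
  have h6 : ‖σ (y : K)‖ = ‖ψ y‖ := rfl
  rw [h6]
  nlinarith [h4, h5, hTκ]

end Pool.Agent.HIK.H52
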